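import Pool.Agent.W744.BU.Fin
import Pool.Agent.W744.BU.Trans
import Pool.Agent.W744.BU.All

/-!
MP_90d4f1_an, Q1 (type 1): the assertion is false. There is a non-trivial compact quantum group
`(H, Δ)` (the reduced C*-algebra of the discrete group `SL(2, ℚ)`), a free coaction `δ` of it on a
non-zero unital C*-algebra `A`, and an equivariant unital star homomorphism from `A` to the
equivariant noncommutative join of `A` and `H`.
-/

set_option autoImplicit false

namespace Pool.Agent.Results.MP_90d4f1_an.TypeOneFails

open Pool.Agent.W744.BU.Fin

/-- The type 1 assertion is false: there are a non-trivial compact quantum group `Q`, a free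
coaction `α` of it on a non-zero unital C*-algebra `α.A`, and an equivariant unital star
homomorphism from `α.A` to the equivariant join. -/
theorem result : ∃ (Q : CQG) (α : Coaction Q), Q.NonTrivial ∧ Nonempty α.J ∧ α.Free ∧
    ∃ φ : Op α.J → unitInterval → Op (α.J × Q.I), α.IsJoinMap φ := by
  obtain ⟨D⟩ := Pool.Agent.W450.BU.DAT.main
  exact Pool.Agent.W744.BU.Trans.main
    (Pool.Agent.W744.BU.final Pool.Agent.W744.BU.parts D)

end Pool.Agent.Results.MP_90d4f1_an.TypeOneFails
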